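import Pool.Agent.W170.Z3.Stm
import Pool.Agent.H336R2.HD.H1

/-! Task H3: the diagonal blocks (adapted from `H387R3.ZF.H3pre`). -/

open Polynomial Pool.Agent.H337R2
open Pool.Agent.W170.Z3

namespace Pool.Agent.W999.Z3

noncomputable section

variable {p : ℕ} [hp : Fact p.Prime]

/-! ### the exponent `eF` -/

theorem eF_val (k : ℕ) : eF p p k = 0 := by
  have hP : p.Prime := hp.out
  have hpp : (0 : ℤ) < p := by exact_mod_cast hP.pos
  have hd : ∀ a : ℕ, a * p / p = a := fun a => Nat.mul_div_cancel a hP.pos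
  have hc : ∀ a b : ℕ, a ≤ b → (cnt p (a * p + 1) (b * p) k : ℤ) = b - a := by
    intro a b hab
    rw [cnt_eq p (a * p + 1) (b * p) k hP.pos (by
      have : a * p ≤ b * p := Nat.mul_le_mul_right p hab
      omega)]
    have h1 : (((b * p : ℕ) : ℤ) - k) / p = (-(k : ℤ)) / p + b := by
      rw [show ((b * p : ℕ) : ℤ) - k = -(k : ℤ) + b * p by push_cast; ring,
        Int.add_mul_ediv_right _ _ hpp.ne']
    have h2 : (((a * p + 1 : ℕ) : ℤ) - 1 - k) / p = (-(k : ℤ)) / p + a := by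
      rw [show ((a * p + 1 : ℕ) : ℤ) - 1 - k = -(k : ℤ) + a * p by push_cast; ring,
        Int.add_mul_ediv_right _ _ hpp.ne']
    rw [h1, h2]; ring
  have h0 := hc 0 4 (by norm_num)
  have h0' := hc 0 6 (by norm_num)
  rw [zero_mul, zero_add] at h0 h0'
  unfold eF
  rw [hd, hd, hd, h0, h0', hc 5 12 (by norm_num)]
  norm_num

/-! ### the numerator -/

/-- the polynomial -/
def Qr (p r e : ℕ) : ℚ[X] := (X + C (r : ℚ)) ^ e * OT p r 4

theorem inv0 : (0 : ℚ) ≤ (p : ℚ)⁻¹ := inv_nonneg.2 p_pos'.le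

theorem one_le_p : (1 : ℚ) ≤ p := by exact_mod_cast hp.out.one_lt.le

theorem PB_lin1 (a : ℤ) (k : ℕ) : PB p (p : ℚ) 1 (TS (-(k : ℚ)) (X + C (a : ℚ))) := by
  rw [TS_lin]
  apply PB.linX p_pos'.le zero_le_one
  · have := padicNorm.of_int (p := p) (-(k : ℤ) + a)
    push_cast at this
    exact this
  · rw [one_mul]; exact one_le_p

theorem PB_linp (a : ℤ) (k : ℕ) (h : (p : ℤ) ∣ a - k) :
    PB p (p : ℚ) (p : ℚ)⁻¹ (TS (-(k : ℚ)) (X + C (a : ℚ))) := by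
  rw [TS_lin]
  apply PB.linX p_pos'.le inv0
  · have := norm_le_ite (p := p) (a - k)
    rw [if_pos h] at this
    rw [show -(k : ℚ) + a = ((a - k : ℤ) : ℚ) by push_cast; ring]
    exact this
  · rw [inv_mul_cancel₀ p_pos'.ne']

theorem PB_Xr (r k : ℕ) : PB p (p : ℚ) 1 (TS (-(k : ℚ)) (X + C (r : ℚ))) := by
  have h1 := PB_lin1 (p := p) (r : ℤ) k
  push_cast at h1
  exact h1

theorem PB_Xrp (r k : ℕ) (h : (p : ℤ) ∣ (k : ℤ) - r) :
    PB p (p : ℚ) (p : ℚ)⁻¹ (TS (-(k : ℚ)) (X + C (r : ℚ))) := by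
  have h1 := PB_linp (p := p) (r : ℤ) k (by
      rw [show (r : ℤ) - k = -((k : ℤ) - r) by ring, dvd_neg]; exact h)
  push_cast at h1
  exact h1

/-- all factors with individual bounds -/
theorem PB_EE (c r e k : ℕ) (ar : ℚ) (a : ℕ → ℚ) (hr : 0 ≤ ar) (ha : ∀ r', 0 ≤ a r')
    (br : PB p (p : ℚ) ar (TS (-(k : ℚ)) (X + C (r : ℚ))))
    (b : ∀ r' ∈ (Finset.Icc 1 p).erase r,
      PB p (p : ℚ) (a r') (TS (-(k : ℚ)) (X + C (r' : ℚ)))) :
    PB p (p : ℚ) (ar ^ e * ∏ r' ∈ (Finset.Icc 1 p).erase r, a r' ^ c)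
      (TS (-(k : ℚ)) ((X + C (r : ℚ)) ^ e * OT p r c)) := by
  unfold OT
  rw [map_mul, map_pow, map_prod]
  simp only [map_pow]
  have h1 := PB.prod (p := p) ((Finset.Icc 1 p).erase r) (fun r' => a r' ^ c)
    (fun r' => (TS (-(k : ℚ)) (X + C (r' : ℚ))) ^ c) p_pos'.le
    (fun r' _ => pow_nonneg (ha r') _) (fun r' hr' => PB.pow p_pos'.le (ha r') (b r' hr') c)
  exact PB.mul p_pos'.le (pow_nonneg hr _)
    (Finset.prod_nonneg fun r' _ => pow_nonneg (ha r') _) (PB.pow p_pos'.le hr br e) h1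

theorem PB_near (c r e k : ℕ) (h : (p : ℤ) ∣ (k : ℤ) - r) :
    PB p (p : ℚ) ((p : ℚ)⁻¹ ^ e) (TS (-(k : ℚ)) ((X + C (r : ℚ)) ^ e * OT p r c)) := by
  have := PB_EE (p := p) c r e k (p : ℚ)⁻¹ (fun _ => 1) inv0 (fun _ => zero_le_one)
    (PB_Xrp r k h) (fun r' _ => PB_Xr r' k)
  simpa using this

theorem PB_far (c r e k r'' : ℕ) (hr'' : r'' ∈ Finset.Icc 1 p) (hne : r'' ≠ r)
    (h : (p : ℤ) ∣ (k : ℤ) - r'') :
    PB p (p : ℚ) ((p : ℚ)⁻¹ ^ c) (TS (-(k : ℚ)) ((X + C (r : ℚ)) ^ e * OT p r c)) := by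
  classical
  have := PB_EE (p := p) c r e k 1 (fun r' => if r' = r'' then (p : ℚ)⁻¹ else 1)
    zero_le_one (fun r' => by split_ifs; exacts [inv0, zero_le_one]) (PB_Xr r k)
    (fun r' _ => by
      split_ifs with h'
      · rw [h']; exact PB_Xrp r'' k h
      · exact PB_Xr r' k)
  have h2 : ∏ r' ∈ (Finset.Icc 1 p).erase r, (if r' = r'' then (p : ℚ)⁻¹ else 1) ^ c =
      (p : ℚ)⁻¹ ^ c := by
    rw [Finset.prod_eq_single r'']
    · rw [if_pos rfl]
    · intro b _ hb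
      rw [if_neg hb, one_pow]
    · intro h3
      exact absurd (Finset.mem_erase.2 ⟨hne, hr''⟩) h3
  rw [h2] at this
  simpa using this

theorem exists_rep (k : ℕ) : ∃ r'' ∈ Finset.Icc 1 p, (p : ℤ) ∣ (k : ℤ) - r'' := by
  have hp0 := hp.out.pos
  have hm := Nat.mod_lt k hp0
  have hdm := Nat.div_add_mod k p
  have hdz : (k : ℤ) = p * ((k / p : ℕ) : ℤ) + ((k % p : ℕ) : ℤ) := by exact_mod_cast hdm.symm
  by_cases h : k % p = 0
  · refine ⟨p, Finset.mem_Icc.2 ⟨by omega, le_rfl⟩, ((k / p : ℕ) : ℤ) - 1, ?_⟩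
    rw [h, Nat.cast_zero, add_zero] at hdz
    rw [mul_sub, mul_one, ← hdz]
  · refine ⟨k % p, Finset.mem_Icc.2 ⟨by omega, by omega⟩, ((k / p : ℕ) : ℤ), ?_⟩
    linarith

/-- statement of `C1_pa` for `n = p` -/
def C1st (p : ℕ) : Prop := ∀ (E : ℚ[X]) (k : ℕ), k ∈ sF p → ∀ (A : ℚ), 0 ≤ A →
  PB p (p : ℚ) A (TS (-(k : ℚ)) E) → ∀ i : ℕ,
    padicNorm p (pa (sF p) mF (PF p * E) k i) ≤ (p : ℚ) ^ (-eF p p k - i : ℤ) * A

/-- the coefficients -/
def cf (p r e k i : ℕ) : ℚ := pa (sF p) mF (PF p * Qr p r e) k i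

/-- bound of the coefficients in the class of `r` -/
theorem pa_near (hC : C1st p) (r e k i : ℕ) (hk : k ∈ sF p) (h : (p : ℤ) ∣ (k : ℤ) - r) :
    padicNorm p (cf p r e k i) ≤ (p : ℚ) ^ (-(i : ℤ) - e) := by
  have h1 := hC (Qr p r e) k hk _ (pow_nonneg inv0 e) (PB_near 4 r e k h) i
  refine h1.trans (le_of_eq ?_)
  rw [eF_val k, inv_pow, ← zpow_natCast, ← zpow_neg, ← zpow_add₀ p_pos'.ne']
  congr 1
  ring

/-- bound of the coefficients in the other classes -/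
theorem pa_far (hC : C1st p) (r e k i : ℕ) (hk : k ∈ sF p) (h : ¬ (p : ℤ) ∣ (k : ℤ) - r) :
    padicNorm p (cf p r e k i) ≤ (p : ℚ) ^ (-(i : ℤ) - 4) := by
  obtain ⟨r'', hr'', h''⟩ := exists_rep (p := p) k
  have h1 := hC (Qr p r e) k hk _ (pow_nonneg inv0 4)
    (PB_far 4 r e k r'' hr'' (fun e => h (e ▸ h'')) h'') i
  refine h1.trans (le_of_eq ?_)
  rw [eF_val k, inv_pow, ← zpow_natCast, ← zpow_neg, ← zpow_add₀ p_pos'.ne']
  congr 1
  push_cast
  ring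

/-! ### splitting the sum over the poles -/

omit hp in
theorem sum_split {r : ℕ} (hp0 : 0 < p) (hr1 : 1 ≤ r) (hr2 : r ≤ p) : ∃ S ⊆ sF p,
    (∀ k ∈ S, ∀ j ∈ Finset.Icc 5 11, k ≠ r + j * p) ∧
    ∀ g : ℕ → ℚ, ∑ k ∈ sF p, g k =
      (∑ j ∈ Finset.Icc 5 11, g (r + j * p)) + ∑ k ∈ S, g k := by
  classical
  have hb : ∀ j ∈ Finset.Icc 5 11, 5 * p ≤ j * p ∧ j * p ≤ 11 * p := fun j hj => by
    rw [Finset.mem_Icc] at hj
    exact ⟨Nat.mul_le_mul_right p hj.1, Nat.mul_le_mul_right p hj.2⟩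
  have hsub : (Finset.Icc 5 11).image (fun j => r + j * p) ⊆ sF p := by
    intro k hk
    rw [Finset.mem_image] at hk
    rw [Finset.mem_Icc]
    obtain ⟨j, hj, rfl⟩ := hk
    have := hb j hj
    omega
  refine ⟨sF p \ (Finset.Icc 5 11).image (fun j => r + j * p), Finset.sdiff_subset, ?_, ?_⟩
  · intro k hk j hj
    rw [Finset.mem_sdiff] at hk
    exact fun h => hk.2 (Finset.mem_image.2 ⟨j, hj, h.symm⟩)
  · intro g
    have h1 : ∑ j ∈ Finset.Icc 5 11, g (r + j * p) =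
        ∑ k ∈ (Finset.Icc 5 11).image (fun j => r + j * p), g k := by
      rw [Finset.sum_image]
      intro a _ b _ hab
      have : a * p = b * p := by simpa using hab
      exact Nat.eq_of_mul_eq_mul_right (by omega) this
    rw [h1, add_comm]
    exact (Finset.sum_sdiff hsub).symm

theorem rest_class {r k : ℕ} (hr1 : 1 ≤ r) (hr2 : r ≤ p) (hk : k ∈ sF p)
    (h : ∀ j ∈ Finset.Icc 5 11, k ≠ r + j * p) :
    ¬ (p : ℤ) ∣ (k : ℤ) - r := by
  have hp0 := hp.out.pos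
  rw [Finset.mem_Icc] at hk
  obtain ⟨h1, h2⟩ := hk
  rintro ⟨m, hm⟩
  have hm' : (k : ℤ) = r + p * m := by linarith
  have h3 : 4 < m := by
    by_contra hcon
    push Not at hcon
    have := mul_le_mul_of_nonneg_left hcon (by positivity : (0 : ℤ) ≤ p)
    have h1' : (5 : ℤ) * p + 1 ≤ k := by exact_mod_cast h1
    have h2' : (r : ℤ) ≤ p := by exact_mod_cast hr2
    linarith
  have h4 : m < 12 := by
    by_contra hcon
    push Not at hcon
    have := mul_le_mul_of_nonneg_left hcon (by positivity : (0 : ℤ) ≤ p)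
    have h1' : (k : ℤ) ≤ 12 * p := by exact_mod_cast h2
    have h2' : (1 : ℤ) ≤ r := by exact_mod_cast hr1
    linarith
  have h5 := h m.toNat (by rw [Finset.mem_Icc]; omega)
  apply h5
  have h6 : ((m.toNat : ℕ) : ℤ) = m := Int.toNat_of_nonneg (by omega)
  have : (k : ℤ) = ((r + m.toNat * p : ℕ) : ℤ) := by
    push_cast
    rw [h6, hm']
    ring
  exact_mod_cast this

/-! ### small facts on norms -/

theorem nadd {a b c : ℚ} (ha : padicNorm p a ≤ c) (hb : padicNorm p b ≤ c) :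
    padicNorm p (a + b) ≤ c := padicNorm.nonarchimedean.trans (max_le ha hb)

theorem nsub {a b c : ℚ} (ha : padicNorm p a ≤ c) (hb : padicNorm p b ≤ c) :
    padicNorm p (a - b) ≤ c := padicNorm.sub.trans (max_le ha hb)

theorem nmul {a b x y : ℚ} (ha : padicNorm p a ≤ x) (hb : padicNorm p b ≤ y) :
    padicNorm p (a * b) ≤ x * y := by
  rw [padicNorm.mul]
  exact mul_le_mul ha hb (padicNorm.nonneg _) ((padicNorm.nonneg _).trans ha)

theorem norm_ppow (m : ℕ) : padicNorm p ((p : ℚ) ^ m) = (p : ℚ) ^ (-(m : ℤ)) := by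
  rw [padicNorm_pow', padicNorm.padicNorm_p_of_prime, inv_pow, zpow_neg, zpow_natCast]

theorem norm_pneg (m : ℕ) : padicNorm p ((p : ℚ) ^ (-(m : ℤ))) = (p : ℚ) ^ (m : ℤ) := by
  rw [zpow_neg, zpow_natCast, inv_eq_one_div, padicNorm.div, padicNorm.one, norm_ppow, one_div,
    zpow_neg, inv_inv, zpow_natCast]

/-- norm of a natural number -/
theorem norm_nat (m : ℕ) : padicNorm p (m : ℚ) ≤ 1 := padicNorm.of_nat m

/-- statement of `H2` -/
def H2st (p r : ℕ) (w : ℚ) : Prop :=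
  ∀ e j i : ℕ, e ≤ 2 → 5 ≤ j → j ≤ 11 → 1 ≤ i → i ≤ 2 →
    padicNorm p (pa (sF p) mF (PF p * ((X + C (r : ℚ)) ^ e * OT p r 4)) (r + j * p) i
      / (p : ℚ) ^ (i + e) -
      w * PowerSeries.coeff (2 - i) (ser j e)) ≤ (p : ℚ)⁻¹

omit hp in
theorem class_mem {r j : ℕ} (hr1 : 1 ≤ r) (hr2 : r ≤ p) (hj : j ∈ Finset.Icc 5 11) :
    r + j * p ∈ sF p := by
  rw [Finset.mem_Icc] at hj ⊢
  have h1 : 5 * p ≤ j * p := Nat.mul_le_mul_right p hj.1
  have h2 : j * p ≤ 11 * p := Nat.mul_le_mul_right p hj.2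
  omega

/-- normalised coefficient is integral -/
theorem cf_norm (hC : C1st p) {r e i j : ℕ} (hr1 : 1 ≤ r) (hr2 : r ≤ p)
    (hj : j ∈ Finset.Icc 5 11) : padicNorm p (cf p r e (r + j * p) i / (p : ℚ) ^ (i + e)) ≤ 1 := by
  have hka := pa_near (p := p) hC r e (r + j * p) i (class_mem hr1 hr2 hj)
    ⟨j, by push_cast; ring⟩
  rw [padicNorm.div, norm_ppow, div_le_one (zpow_pos p_pos' _)]
  refine hka.trans (le_of_eq ?_)
  congr 1
  push_cast
  ring

/-- norm of the scaling factor -/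
theorem norm_scale (e : ℕ) : padicNorm p ((p : ℚ) ^ (1 - (e : ℤ))) = (p : ℚ) ^ ((e : ℤ) - 1) := by
  rw [zpow_sub₀ p_pos'.ne', padicNorm.div]
  have h1 : padicNorm p ((p : ℚ) ^ (1 : ℤ)) = (p : ℚ) ^ (-1 : ℤ) := by
    have := norm_ppow (p := p) 1
    exact_mod_cast this
  rw [h1, zpow_natCast, norm_ppow, ← zpow_sub₀ p_pos'.ne']
  congr 1
  ring

/-- the contribution of one near pole, with a harmonic number -/
theorem near_term (hC : C1st p) (hp30 : 30 ≤ p) {r e i j : ℕ} (hr1 : 1 ≤ r) (hr2 : r ≤ p)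
    (hj : j ∈ Finset.Icc 5 11) (γ : ℚ)
    (hγ : padicNorm p (cf p r e (r + j * p) i / (p : ℚ) ^ (i + e) - γ) ≤ (p : ℚ)⁻¹) :
    padicNorm p ((p : ℚ) ^ (1 - (e : ℤ)) *
      (cf p r e (r + j * p) i * hs (i + 1) (r + j * p - 4 * p - 1)) -
      γ * hs (i + 1) (j - 4)) ≤ (p : ℚ)⁻¹ := by
  have hj' := Finset.mem_Icc.1 hj
  have e1 : r + j * p - 4 * p - 1 = (j - 4) * p + (r - 1) := by
    have h1 : (j - 4) * p + 4 * p = j * p := by
      rw [← Nat.add_mul]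
      congr 1
      omega
    omega
  have hA1 := cf_norm (p := p) hC (e := e) (i := i) hr1 hr2 hj
  rw [e1]
  set a := cf p r e (r + j * p) i with ha
  set A := a / (p : ℚ) ^ (i + e) with hA
  have haA : (p : ℚ) ^ (1 - (e : ℤ)) * a = A * (p : ℚ) ^ (i + 1) := by
    rw [hA, zpow_sub₀ p_pos'.ne', zpow_natCast, pow_add]
    have h1 : (p : ℚ) ^ i ≠ 0 := pow_ne_zero _ p_pos'.ne'
    have h2 : (p : ℚ) ^ e ≠ 0 := pow_ne_zero _ p_pos'.ne'
    have h3 : ((p : ℚ) ^ (1 : ℤ)) = (p : ℚ) ^ 1 := by norm_cast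
    rw [h3, pow_add]
    field_simp
  have hb := Pool.Agent.H336R2.HD.H1_hs (p := p) (r - 1) (j - 4) (i + 1) (by omega) (by omega)
    (by omega)
  have hH := hs_norm_small (p := p) (i + 1) (j - 4) (by omega)
  have key : (p : ℚ) ^ (1 - (e : ℤ)) * (a * hs (i + 1) ((j - 4) * p + (r - 1))) -
      γ * hs (i + 1) (j - 4) =
      A * ((p : ℚ) ^ (i + 1) * hs (i + 1) ((j - 4) * p + (r - 1)) - hs (i + 1) (j - 4)) +
        (A - γ) * hs (i + 1) (j - 4) := by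
    linear_combination hs (i + 1) ((j - 4) * p + (r - 1)) * haA
  rw [key]
  refine nadd ?_ ?_
  · have := nmul hA1 hb
    rwa [one_mul] at this
  · have := nmul hγ hH
    rwa [mul_one] at this

/-- the contribution of the other poles -/
theorem far_term (hC : C1st p) (hp30 : 30 ≤ p) {r e i k : ℕ} (he : e ≤ 2) (hk : k ∈ sF p)
    (h : ¬ (p : ℤ) ∣ (k : ℤ) - r) :
    padicNorm p ((p : ℚ) ^ (1 - (e : ℤ)) * (cf p r e k i * hs (i + 1) (k - 4 * p - 1))) ≤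
      (p : ℚ)⁻¹ := by
  have hk' := Finset.mem_Icc.1 hk
  have h1 := pa_far (p := p) hC r e k i hk h
  have h2 := hs_norm_med (p := p) (i + 1) (k - 4 * p - 1) (by
    have : k ≤ 12 * p := hk'.2
    have h3 : 30 * p ≤ p ^ 2 := by nlinarith
    omega)
  have h4 := nmul (norm_scale (p := p) e).le (nmul h1 h2)
  refine h4.trans ?_
  rw [← zpow_natCast (p : ℚ) (i + 1), ← zpow_add₀ p_pos'.ne', ← zpow_add₀ p_pos'.ne',
    ← zpow_neg_one]
  apply zpow_le_zpow_right₀ one_le_p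
  push_cast
  omega

/-- the contribution of the other poles to the sum of the double residues -/
theorem far_rho (hC : C1st p) {r e k : ℕ} (he : e ≤ 2) (hk : k ∈ sF p)
    (h : ¬ (p : ℤ) ∣ (k : ℤ) - r) :
    padicNorm p (cf p r e k 2 / (p : ℚ) ^ (2 + e)) ≤ (p : ℚ)⁻¹ := by
  have h1 := pa_far (p := p) hC r e k 2 hk h
  rw [padicNorm.div, norm_ppow, div_le_iff₀ (zpow_pos p_pos' _)]
  refine h1.trans ?_
  rw [← zpow_neg_one, ← zpow_add₀ p_pos'.ne']
  apply zpow_le_zpow_right₀ one_le_p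
  push_cast
  omega

theorem H3_of (h1 : StC1) (h2 : StH2) : StH3 := by
  intro p hpf hp100 r hr1 hr2
  obtain ⟨w, hw1, hw0⟩ := h2 hp100 r hr1 hr2
  have hw : H2st p r w := hw0
  have hP : p.Prime := hpf.out
  have hC : C1st p := fun E k hk A hA hE i => h1 (n := p) (by omega) (by nlinarith) E hk A hA hE i
  refine ⟨w, hw1, fun x a b ha hb hab e he => ?_⟩
  obtain ⟨S, hS, hSr, hsum⟩ := sum_split (p := p) (by omega) hr1 hr2
  show padicNorm p (a * ((p : ℚ) ^ (1 - (e : ℤ)) * NL p x (Qr p r e)) -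
    w * (a * Fm e + b * rm e)) ≤ _
  have hp0 : (p : ℚ) ≠ 0 := p_pos'.ne'
  -- the part with `rho`
  have hrho : rho p (PF p * Qr p r e) = (∑ j ∈ Finset.Icc 5 11, cf p r e (r + j * p) 2) +
      ∑ k ∈ S, cf p r e k 2 := hsum _
  have hh3 : h3 p (PF p * Qr p r e) =
      (∑ j ∈ Finset.Icc 5 11, (2 * cf p r e (r + j * p) 2 * hs 3 (r + j * p - 4 * p - 1) +
        cf p r e (r + j * p) 1 * hs 2 (r + j * p - 4 * p - 1))) +
      ∑ k ∈ S, (2 * cf p r e k 2 * hs 3 (k - 4 * p - 1) +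
        cf p r e k 1 * hs 2 (k - 4 * p - 1)) := hsum _
  have hax : a * (p : ℚ) ^ (1 - (e : ℤ)) * x = b / (p : ℚ) ^ (2 + e) := by
    rw [← hab, zpow_sub₀ hp0, zpow_natCast, zpow_one, pow_add]
    have h2 : (p : ℚ) ^ e ≠ 0 := pow_ne_zero _ hp0
    field_simp
  have hN : a * ((p : ℚ) ^ (1 - (e : ℤ)) * NL p x (Qr p r e)) - w * (a * Fm e + b * rm e) =
      (∑ j ∈ Finset.Icc 5 11, 2 * b * (cf p r e (r + j * p) 2 / (p : ℚ) ^ (2 + e) -
          w * PowerSeries.coeff 0 (ser j e)) +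
        ∑ k ∈ S, 2 * b * (cf p r e k 2 / (p : ℚ) ^ (2 + e))) -
      ((∑ j ∈ Finset.Icc 5 11, a * (2 * ((p : ℚ) ^ (1 - (e : ℤ)) *
          (cf p r e (r + j * p) 2 * hs (2 + 1) (r + j * p - 4 * p - 1)) -
          (w * PowerSeries.coeff 0 (ser j e)) * hs (2 + 1) (j - 4)) +
        ((p : ℚ) ^ (1 - (e : ℤ)) *
          (cf p r e (r + j * p) 1 * hs (1 + 1) (r + j * p - 4 * p - 1)) -
          (w * PowerSeries.coeff 1 (ser j e)) * hs (1 + 1) (j - 4)))) +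
        ∑ k ∈ S, a * (2 * ((p : ℚ) ^ (1 - (e : ℤ)) * (cf p r e k 2 * hs (2 + 1) (k - 4 * p - 1))) +
          (p : ℚ) ^ (1 - (e : ℤ)) * (cf p r e k 1 * hs (1 + 1) (k - 4 * p - 1)))) := by
    have t1 : (∑ j ∈ Finset.Icc 5 11, 2 * b * (cf p r e (r + j * p) 2 / (p : ℚ) ^ (2 + e) -
          w * PowerSeries.coeff 0 (ser j e))) =
        2 * b / (p : ℚ) ^ (2 + e) * (∑ j ∈ Finset.Icc 5 11, cf p r e (r + j * p) 2) -
          w * b * (2 * ∑ j ∈ Finset.Icc 5 11, PowerSeries.coeff 0 (ser j e)) := by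
      rw [Finset.mul_sum, Finset.mul_sum, Finset.mul_sum, ← Finset.sum_sub_distrib]
      refine Finset.sum_congr rfl fun j _ => ?_
      ring
    have t1' : (∑ k ∈ S, 2 * b * (cf p r e k 2 / (p : ℚ) ^ (2 + e))) =
        2 * b / (p : ℚ) ^ (2 + e) * (∑ k ∈ S, cf p r e k 2) := by
      rw [Finset.mul_sum]
      refine Finset.sum_congr rfl fun k _ => ?_
      ring
    have t2 : (∑ j ∈ Finset.Icc 5 11, a * (2 * ((p : ℚ) ^ (1 - (e : ℤ)) *
          (cf p r e (r + j * p) 2 * hs (2 + 1) (r + j * p - 4 * p - 1)) -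
          (w * PowerSeries.coeff 0 (ser j e)) * hs (2 + 1) (j - 4)) +
        ((p : ℚ) ^ (1 - (e : ℤ)) *
          (cf p r e (r + j * p) 1 * hs (1 + 1) (r + j * p - 4 * p - 1)) -
          (w * PowerSeries.coeff 1 (ser j e)) * hs (1 + 1) (j - 4)))) =
        a * (p : ℚ) ^ (1 - (e : ℤ)) * (∑ j ∈ Finset.Icc 5 11,
          (2 * cf p r e (r + j * p) 2 * hs 3 (r + j * p - 4 * p - 1) +
          cf p r e (r + j * p) 1 * hs 2 (r + j * p - 4 * p - 1))) -
        w * a * ∑ j ∈ Finset.Icc 5 11, (2 * PowerSeries.coeff 0 (ser j e) * hs 3 (j - 4) +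
          PowerSeries.coeff 1 (ser j e) * hs 2 (j - 4)) := by
      rw [Finset.mul_sum, Finset.mul_sum, ← Finset.sum_sub_distrib]
      refine Finset.sum_congr rfl fun j _ => ?_
      simp only [Nat.reduceAdd]
      ring
    have t3 : (∑ k ∈ S, a * (2 * ((p : ℚ) ^ (1 - (e : ℤ)) *
          (cf p r e k 2 * hs (2 + 1) (k - 4 * p - 1))) +
          (p : ℚ) ^ (1 - (e : ℤ)) * (cf p r e k 1 * hs (1 + 1) (k - 4 * p - 1)))) =
        a * (p : ℚ) ^ (1 - (e : ℤ)) * ∑ k ∈ S, (2 * cf p r e k 2 * hs 3 (k - 4 * p - 1) +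
          cf p r e k 1 * hs 2 (k - 4 * p - 1)) := by
      rw [Finset.mul_sum]
      refine Finset.sum_congr rfl fun k _ => ?_
      simp only [Nat.reduceAdd]
      ring
    rw [t1, t1', t2, t3, NL_apply]
    unfold xf
    rw [hh3, hrho]
    unfold Fm rm
    linear_combination (2 * ((∑ j ∈ Finset.Icc 5 11, cf p r e (r + j * p) 2) +
      ∑ k ∈ S, cf p r e k 2)) * hax
  rw [hN]
  have c2 : padicNorm p (2 : ℚ) ≤ 1 := by exact_mod_cast norm_nat (p := p) 2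
  have m1 : ∀ {x y : ℚ}, padicNorm p x ≤ 1 → padicNorm p y ≤ (p : ℚ)⁻¹ →
      padicNorm p (x * y) ≤ (p : ℚ)⁻¹ := by
    intro x y hx hy
    have := nmul hx hy
    rwa [one_mul] at this
  have c2b : padicNorm p (2 * b) ≤ 1 := by
    have := nmul c2 hb
    rwa [one_mul] at this
  have hp30 : 30 ≤ p := by omega
  refine nsub (nadd ?_ ?_) (nadd ?_ ?_)
  · apply padicNorm.sum_le' _ inv0
    intro j hj
    have hj' := Finset.mem_Icc.1 hj
    exact m1 c2b (hw e j 2 he hj'.1 hj'.2 (by norm_num) le_rfl)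
  · apply padicNorm.sum_le' _ inv0
    intro k hk
    exact m1 c2b (far_rho hC he (hS hk) (rest_class hr1 hr2 (hS hk) (hSr k hk)))
  · apply padicNorm.sum_le' _ inv0
    intro j hj
    have hj' := Finset.mem_Icc.1 hj
    refine m1 ha (nadd (m1 c2 ?_) ?_)
    · exact near_term hC hp30 hr1 hr2 hj _ (hw e j 2 he hj'.1 hj'.2 (by norm_num) le_rfl)
    · exact near_term hC hp30 hr1 hr2 hj _ (hw e j 1 he hj'.1 hj'.2 le_rfl (by norm_num))
  · apply padicNorm.sum_le' _ inv0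
    intro k hk
    refine m1 ha (nadd (m1 c2 ?_) ?_)
    · exact far_term hC hp30 he (hS hk) (rest_class hr1 hr2 (hS hk) (hSr k hk))
    · exact far_term hC hp30 he (hS hk) (rest_class hr1 hr2 (hS hk) (hSr k hk))

end

end Pool.Agent.W999.Z3
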